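import Pool.Agent.MP_670f9a_nt.H13.Spec

/-! Fekete subsets and the discriminant. -/

namespace Pool.Agent.MP_670f9a_nt.H26

open Polynomial Pool.Agent.MP_670f9a_nt.H13 Finset

section fek
variable {E : Type} [NormedField E] [DecidableEq E]

/-- The absolute discriminant of a finite set. -/
noncomputable def D (J : Finset E) : ℝ := ∏ u ∈ J, ∏ v ∈ J.erase u, ‖u - v‖

lemma D_pos (J : Finset E) : 0 < D J :=
  prod_pos fun _ _ => prod_pos fun _ hv => norm_pos_iff.2 (sub_ne_zero.2 (ne_of_mem_erase hv).symm)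

lemma D_union {I K : Finset E} (h : Disjoint I K) :
    D (I ∪ K) = D I * D K * (∏ u ∈ K, ∏ v ∈ I, ‖u - v‖) ^ 2 := by
  have h1 : ∀ u ∈ I, ∏ v ∈ (I ∪ K).erase u, ‖u - v‖ =
      (∏ v ∈ I.erase u, ‖u - v‖) * ∏ v ∈ K, ‖v - u‖ := fun u hu => by
    rw [erase_union_distrib, erase_eq_of_notMem (disjoint_left.1 h hu),
      prod_union (h.mono_left (erase_subset _ _))]
    simp only [norm_sub_rev u]
  have h2 : ∀ u ∈ K, ∏ v ∈ (I ∪ K).erase u, ‖u - v‖ =
      (∏ v ∈ I, ‖u - v‖) * ∏ v ∈ K.erase u, ‖u - v‖ := fun u hu => by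
    rw [erase_union_distrib, erase_eq_of_notMem (disjoint_right.1 h hu),
      prod_union (h.mono_right (erase_subset _ _))]
  rw [D, prod_union h, prod_congr rfl h1, prod_congr rfl h2, prod_mul_distrib, prod_mul_distrib,
    prod_comm (s := I) (t := K), D, D]
  ring

lemma D_insert {J : Finset E} {u : E} (h : u ∉ J) :
    D (insert u J) = D J * (∏ v ∈ J, ‖u - v‖) ^ 2 := by
  rw [insert_eq, union_comm, D_union (disjoint_singleton_right.2 h)]
  simp [D]

lemma fek (T : Finset E) (N : ℕ) (hN : N ≤ T.card) : ∃ I : Finset E, I ⊆ T ∧ I.card = N ∧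
    ∀ a ∈ I, D T ≤ D I * D (T \ I) * (∏ u ∈ T \ I, ‖u - a‖) ^ 2 *
      (∏ v ∈ I.erase a, ‖a - v‖) ^ (2 * (T.card - N)) := by
  obtain ⟨I, hI, hmax⟩ := exists_max_image (powersetCard N T) D (powersetCard_nonempty.2 hN)
  obtain ⟨hIT, hc⟩ := mem_powersetCard.1 hI
  refine ⟨I, hIT, hc, fun a ha => ?_⟩
  have key : ∀ u ∈ T \ I, ∏ v ∈ I, ‖u - v‖ ≤ ‖u - a‖ * ∏ v ∈ I.erase a, ‖a - v‖ := by
    intro u hu
    obtain ⟨huT, huI⟩ := mem_sdiff.1 hu
    have hu' : u ∉ I.erase a := fun k => huI (mem_of_mem_erase k)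
    have h1 := hmax (insert u (I.erase a)) (mem_powersetCard.2
      ⟨insert_subset huT ((erase_subset _ _).trans hIT), by
        rw [card_insert_of_notMem hu', card_erase_add_one ha, hc]⟩)
    have h2 := D_insert (notMem_erase a I)
    rw [insert_erase ha] at h2
    rw [D_insert hu', h2] at h1
    have h3 := le_of_mul_le_mul_left h1 (D_pos _)
    rw [← mul_prod_erase I _ ha]
    exact mul_le_mul_of_nonneg_left
      ((pow_le_pow_iff_left₀ (prod_nonneg fun _ _ => norm_nonneg _)
        (prod_nonneg fun _ _ => norm_nonneg _) two_ne_zero).1 h3) (norm_nonneg _)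
  have h4 : ∏ u ∈ T \ I, ∏ v ∈ I, ‖u - v‖ ≤
      (∏ u ∈ T \ I, ‖u - a‖) * (∏ v ∈ I.erase a, ‖a - v‖) ^ (T.card - N) := by
    refine (prod_le_prod (fun _ _ => prod_nonneg fun _ _ => norm_nonneg _) key).trans_eq ?_
    rw [prod_mul_distrib, prod_const, card_sdiff_of_subset hIT, hc]
  have h5 := D_union (disjoint_sdiff (s := I) (t := T))
  rw [union_sdiff_of_subset hIT] at h5
  rw [h5, mul_assoc (D I * D (T \ I)), mul_comm 2, pow_mul, ← mul_pow]
  exact mul_le_mul_of_nonneg_left
    (pow_le_pow_left₀ (prod_nonneg fun _ _ => prod_nonneg fun _ _ => norm_nonneg _) h4 2)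
    (mul_pos (D_pos _) (D_pos _)).le

end fek

theorem sfek : SFek := fun E _ T N hN => by
  classical
  exact fek T N hN

lemma disc_eq (A : ℤ[X]) (hm : A.Monic) (hi : Irreducible A) (E : Type) [Field E] [CharZero E]
    [IsAlgClosed E] [DecidableEq E] : (A.aroots E).toFinset.card = A.natDegree ∧
    ∏ u ∈ (A.aroots E).toFinset, ∏ v ∈ (A.aroots E).toFinset.erase u, (u - v) =
      ((resultant A (derivative A) A.natDegree A.natDegree : ℤ) : E) := by
  have hsep : (A.map (algebraMap ℤ E)).Separable := by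
    have h1 : (A.map (algebraMap ℤ ℚ)).Separable :=
      ((hm.irreducible_iff_irreducible_map_fraction_map (K := ℚ)).1 hi).separable
    have h2 := h1.map (f := algebraMap ℚ E)
    rwa [Polynomial.map_map, RingHom.ext_int ((algebraMap ℚ E).comp _) (algebraMap ℤ E)] at h2
  have hnd := nodup_roots hsep
  have hsp := IsAlgClosed.splits (A.map (algebraMap ℤ E))
  have hm' := hm.map (algebraMap ℤ E)
  have hd : (A.map (algebraMap ℤ E)).natDegree = A.natDegree := hm.natDegree_map _
  rw [aroots_def]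
  refine ⟨by rw [Multiset.toFinset_card_of_nodup hnd, ← hsp.natDegree_eq_card_roots, hd], ?_⟩
  have h3 := resultant_eq_prod_eval (A.map (algebraMap ℤ E)) (derivative (A.map (algebraMap ℤ E)))
    A.natDegree ((natDegree_derivative_le _).trans ((Nat.sub_le _ _).trans hd.le)) hsp
  rw [hd, derivative_map, resultant_map_map, hm'.leadingCoeff, one_pow, one_mul,
    ← derivative_map] at h3
  rw [← eq_intCast (algebraMap ℤ E), h3, prod_eq_multiset_prod, Multiset.toFinset_val,
    hnd.dedup]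
  refine congrArg _ (Multiset.map_congr rfl fun u hu => ?_)
  rw [hsp.eval_root_derivative hm' hu, prod_eq_multiset_prod, erase_val, Multiset.toFinset_val,
    hnd.dedup]

lemma D_le [DecidableEq ℂ] (J : Finset ℂ) (r : ℝ) (hr : 1 ≤ r) (h : ∀ u ∈ J, ‖u‖ ≤ r) :
    D J ≤ (J.card : ℝ) ^ (2 * J.card) * r ^ (J.card ^ 2) := by
  set n := J.card
  let z : Fin n → ℂ := fun i => (J.equivFin.symm i : ℂ)
  have hz : Function.Injective z := Subtype.val_injective.comp J.equivFin.symm.injective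
  have hJ : J = univ.image z := by
    ext x
    simp only [mem_image, mem_univ, true_and]
    exact ⟨fun hx => ⟨J.equivFin ⟨x, hx⟩, by simp [z]⟩, fun ⟨i, e⟩ => e ▸ (J.equivFin.symm i).2⟩
  have h1 : D J = ‖(Matrix.vandermonde z).det‖ ^ 2 := by
    have h2 := prod_prod_Ioi_mul_eq_prod_prod_off_diag fun j i : Fin n => ‖z i - z j‖
    rw [Matrix.det_vandermonde, norm_prod, sq, ← prod_mul_distrib, D]
    conv_lhs => rw [hJ, prod_image hz.injOn]
    simp only [← image_erase hz, prod_image hz.injOn, ← compl_singleton]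
    rw [← h2]
    refine prod_congr rfl fun i _ => ?_
    rw [norm_prod, ← prod_mul_distrib]
    exact prod_congr rfl fun j _ => by rw [norm_sub_rev (z i)]
  have h3 : ‖(Matrix.vandermonde z).det‖ ≤ (n : ℝ) ^ n * r ^ (∑ i : Fin n, (i : ℕ)) := by
    rw [Matrix.det_apply']
    refine (norm_sum_le_of_le (n := fun _ => r ^ (∑ i : Fin n, (i : ℕ))) _ fun σ _ => ?_).trans ?_
    · rw [norm_mul, norm_prod, ← prod_pow_eq_pow_sum]
      have : ‖((Equiv.Perm.sign σ : ℤ) : ℂ)‖ = 1 := by
        rcases Int.units_eq_one_or (Equiv.Perm.sign σ) with e | e <;> simp [e]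
      rw [this, one_mul]
      refine prod_le_prod (fun _ _ => norm_nonneg _) fun i _ => ?_
      rw [Matrix.vandermonde_apply, norm_pow]
      exact pow_le_pow_left₀ (norm_nonneg _) (h _ (J.equivFin.symm _).2) _
    · rw [sum_const, card_univ, Fintype.card_perm, Fintype.card_fin, nsmul_eq_mul]
      refine mul_le_mul_of_nonneg_right ?_ (by positivity)
      exact_mod_cast Nat.factorial_le_pow n
  have h4 : (∑ i : Fin n, (i : ℕ)) * 2 ≤ n ^ 2 := by
    rw [Fin.sum_univ_eq_sum_range (fun i => i) n, sum_range_id_mul_two, sq]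
    exact Nat.mul_le_mul_left _ (Nat.sub_le _ _)
  rw [h1]
  refine (pow_le_pow_left₀ (norm_nonneg _) h3 2).trans ?_
  rw [mul_pow, ← pow_mul, ← pow_mul, mul_comm n 2]
  exact mul_le_mul_of_nonneg_left (pow_le_pow_right₀ hr h4) (by positivity)

theorem sdisc : SDisc := by
  classical
  refine ⟨fun A hm hi => ⟨resultant A (derivative A) A.natDegree A.natDegree, fun h0 => ?_,
    fun E _ _ _ => disc_eq A hm hi E⟩, fun J r hr h => D_le J r hr h⟩
  have := (disc_eq A hm hi ℂ).2
  rw [h0, Int.cast_zero] at this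
  exact prod_ne_zero_iff.2 (fun u _ => prod_ne_zero_iff.2 fun v hv =>
    sub_ne_zero.2 (ne_of_mem_erase hv).symm) this

end Pool.Agent.MP_670f9a_nt.H26
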